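import Pool.Agent.Helper52.SX.Goals3
import Pool.Agent.Helper78.DT.Av

/-!
# Project SX, packet FPR: the certified tuple loses little
-/

namespace Pool.Agent.Helper35.SX

open Pool.Agent.Helper81.CC Pool.Agent.Helper78.DT Pool.Agent.Helper51.ZP Pool.Agent.Helper65.CS
open Pool.Agent.Helper52.SX
open Pool.Agent.Helper78.JT (Clause CList Circuit Holds out cnt size Narrow lsize)
open scoped Classical

/-- The union bound along a list. -/
theorem pr_list {Ω α : Type} [Fintype Ω] (E : α → Ω → Prop) (l : List α) (b : ℝ)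
    (h : ∀ a ∈ l, pr (E a) ≤ b) : pr (fun w => ∃ a ∈ l, E a w) ≤ (l.length : ℝ) * b := by
  induction l with
  | nil =>
    have h0 : pr (fun w : Ω => ∃ a ∈ ([] : List α), E a w) = 0 := by
      rw [pr_eq_card]
      have : Nat.card {w : Ω // ∃ a ∈ ([] : List α), E a w} = 0 := by
        rw [Nat.card_eq_zero]
        left
        exact ⟨fun w => by simpa using w.2⟩
      rw [this]
      simp
    rw [h0]
    simp
  | cons a l ih =>
    have h1 : pr (fun w => ∃ a' ∈ a :: l, E a' w) ≤
        pr (E a) + pr (fun w => ∃ a' ∈ l, E a' w) := by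
      refine pr_le_add_of_imp fun w hw => ?_
      obtain ⟨a', ha', h'⟩ := hw
      rcases List.mem_cons.1 ha' with rfl | ha'
      · exact Or.inl h'
      · exact Or.inr ⟨a', ha', h'⟩
    have h2 := h a List.mem_cons_self
    have h3 := ih fun a' ha' => h a' (List.mem_cons_of_mem _ ha')
    rw [List.length_cons]
    push_cast
    linarith

/-- The union bound along a list of lists. -/
theorem pr_list2 {Ω α : Type} [Fintype Ω] (E : α → Ω → Prop) (L : List (List α)) (b : ℝ)
    (h : ∀ l ∈ L, ∀ a ∈ l, pr (E a) ≤ b) :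
    pr (fun w => ∃ l ∈ L, ∃ a ∈ l, E a w) ≤ ((L.map List.length).sum : ℝ) * b := by
  have h1 : pr (fun w => ∃ l ∈ L, ∃ a ∈ l, E a w) = pr (fun w => ∃ a ∈ L.flatten, E a w) := by
    refine pr_congr fun w => ?_
    constructor
    · rintro ⟨l, hl, a, ha, h'⟩
      exact ⟨a, List.mem_flatten.2 ⟨l, hl, ha⟩, h'⟩
    · rintro ⟨a, ha, h'⟩
      obtain ⟨l, hl, ha'⟩ := List.mem_flatten.1 ha
      exact ⟨l, hl, a, ha', h'⟩
  rw [h1]
  refine (pr_list E L.flatten b ?_).trans (le_of_eq ?_)
  · intro a ha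
    obtain ⟨l, hl, ha'⟩ := List.mem_flatten.1 ha
    exact h l hl a ha'
  · rw [List.length_flatten]

theorem length_le_lsize (f : CList) : f.length ≤ lsize f := by
  unfold lsize
  induction f with
  | nil => simp
  | cons e f ih =>
    rw [List.map_cons, List.sum_cons, List.length_cons]
    omega

theorem tests_le_size (z : Circuit) : (z.2.1.map List.length).sum ≤ size z := by
  have h1 : ∀ L : List CList, (L.map List.length).sum ≤ (L.map fun f => 1 + lsize f).sum := by
    intro L
    induction L with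
    | nil => simp
    | cons f L ih =>
      rw [List.map_cons, List.map_cons, List.sum_cons, List.sum_cons]
      have := length_le_lsize f
      omega
  have h2 := h1 z.2.1
  unfold size
  omega

theorem card_fun (n : ℕ) : (Fintype.card (Fin n → Bool) : ℝ) = 2 ^ n := by
  simp

theorem fpr (hcln : ClnStmt) (hcnv : CnvStmt) (hexh : ExhStmt) : FprStmt := by
  intro z D k hk hN
  have e1 : (cnt z : ℝ) / 2 ^ z.1 = pr (fun x : Fin z.1 → Bool => out z x = true) := by
    rw [pr_eq_card, card_fun]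
    rfl
  have e2 : fract z.1 (cnv D z.2.1.length z) =
      pr (fun x : Fin z.1 → Bool => tv x (cnv D z.2.1.length z) = true) := by
    rw [pr_eq_card, card_fun]
    rfl
  rw [e1, e2]
  have h1 := pr_le_add_of_imp
    (E := fun x : Fin z.1 → Bool => out z x = true)
    (E' := fun x : Fin z.1 → Bool => tv x (cnv D z.2.1.length z) = true)
    (B := fun x : Fin z.1 → Bool =>
      ∃ f ∈ z.2.1, ∃ e ∈ f, 2 ≤ nx (cl z.1 e.1) (run (cl z.1 e.1) x D))
    (fun x hx => (hcnv D z x).2 hx)
  refine h1.trans (add_le_add_right ?_ _)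
  set A : ℝ := 1 - 1 / ((k : ℝ) * 2 ^ k) with hA
  have hA0 : 0 ≤ A := by
    have hk1 : (1 : ℝ) ≤ (k : ℝ) := by exact_mod_cast (by omega : 1 ≤ k)
    have hk2 : (1 : ℝ) ≤ 2 ^ k := one_le_pow₀ (by norm_num)
    have h3 : (1 : ℝ) ≤ (k : ℝ) * 2 ^ k := one_le_mul_of_one_le_of_one_le hk1 hk2
    have h4 : 1 / ((k : ℝ) * 2 ^ k) ≤ 1 := by
      rw [div_le_one (by linarith)]
      exact h3
    rw [hA]
    linarith
  have hAD : 0 ≤ A ^ D := pow_nonneg hA0 D
  have hb : ∀ f ∈ z.2.1, ∀ e ∈ f,
      pr (fun x : Fin z.1 → Bool => 2 ≤ nx (cl z.1 e.1) (run (cl z.1 e.1) x D)) ≤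
        2 * 3 ^ (k * (Nat.log 2 (size z) + 1)) * A ^ D := by
    intro f hf e he
    have h3 := hexh z.1 k (cl z.1 e.1) D hk (hcln z.1 e.1).1
    refine h3.trans ?_
    have h4 : ((cl z.1 e.1).filter fun C => decide (k < C.length)).length ≤
        k * (Nat.log 2 (size z) + 1) :=
      ((hcln z.1 e.1).2.2 k).trans (hN f hf e he)
    have h5 : (3 : ℝ) ^ ((cl z.1 e.1).filter fun C => decide (k < C.length)).length ≤
        3 ^ (k * (Nat.log 2 (size z) + 1)) := pow_le_pow_right₀ (by norm_num) h4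
    exact mul_le_mul_of_nonneg_right (by linarith) hAD
  have h6 := pr_list2
    (fun (e : List Clause × Bool) (x : Fin z.1 → Bool) =>
      2 ≤ nx (cl z.1 e.1) (run (cl z.1 e.1) x D)) z.2.1
    (2 * 3 ^ (k * (Nat.log 2 (size z) + 1)) * A ^ D) hb
  refine h6.trans (mul_le_mul_of_nonneg_right ?_ (by positivity))
  exact_mod_cast tests_le_size z

end Pool.Agent.Helper35.SX
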